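import Pool.Agent.T2H81.RY.T_CA
import Pool.Agent.T2H81.RY.T_CC
import Pool.Agent.T2H81.RY.T_CIRCU
import Pool.Agent.T2H81.RY.T_DIM
import Pool.Agent.T2H81.RY.T_DIMC
import Pool.Agent.T2H81.RY.T_EXCH
import Pool.Agent.T2H81.RY.T_FIN
import Pool.Agent.T2H81.RY.T_GEN
import Pool.Agent.T2H81.RY.T_GEN2
import Pool.Agent.T2H81.RY.T_IMP
import Pool.Agent.T2H81.RY.T_INDEP
import Pool.Agent.T2H81.RY.T_KEY
import Pool.Agent.T2H81.RY.K2
import Pool.Agent.T2H81.RY.T_POS
import Pool.Agent.T2H81.RY.T_ROOM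
import Pool.Agent.T2H81.RY.T_ROT
import Pool.Agent.T2H81.RY.T_SPAN
import Pool.Agent.T2H81.RY.T_TIE
import Pool.Agent.T2H81.RY.T_TV
import Pool.Agent.T2H81.RZ.T_ASMR
import Pool.Agent.T2H81.RZ.T_CASEX
import Pool.Agent.T2H81.RZ.T_DESC
import Pool.Agent.T2H81.RZ.T_DW
import Pool.Agent.T2H81.RZ.T_EXT
import Pool.Agent.T2H81.RZ.T_INT
import Pool.Agent.T2H81.RZ.T_KEY3
import Pool.Agent.T2H81.RZ.T_KW
import Pool.Agent.T2H81.RZ.T_NEXT
import Pool.Agent.T2H81.RZ.T_RK
import Pool.Agent.T2H81.RZ.T_TIEQ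

/-!
# The dimension of the set of Tverberg points, for all numbers of parts

Let X be a set of (d+1)(r-1)+1+k points in general position (in the weak sense of the problem) in
ℝ^d, 0 ≤ k ≤ d. Reay's conjecture says dim T_r(X) ≥ k. Here it is proved that
dim T_r(X) ≥ k - c whenever (k - c) + (r - c) (r - c - 5) ≤ d (differences of natural numbers, at
least 0). So (c = 0) Reay's inequality holds if k ≤ d - r (r - 5), for all r; in particular for
r ≤ 5 and all k; and (c = r - 5) always dim T_r(X) ≥ k - (r - 5).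
-/

set_option autoImplicit false

namespace Pool.Agent.Results.MP_a0a351_co.AllNumbersOfParts

open Pool.Agent.T2H81.RY Pool.Agent.T2H81.RZ

/-- Any (d+1)(r-1)+1+k points in general position in ℝ^d, k ≤ d, can be split into r parts whose
convex hulls have k-c+1 affinely independent points in common, i.e. intersect in dimension at least
k - c, if c ≤ k and (k - c) + (r - c) (r - c - 5) ≤ d (truncated subtraction). -/
theorem result :
    ∀ (d r k n c : ℕ), 1 ≤ r → k ≤ d → c ≤ k → (k - c) + (r - c) * (r - c - 5) ≤ d →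
      n = (d + 1) * (r - 1) + 1 + k →
      ∀ p : Fin n → EuclideanSpace ℝ (Fin d),
        (∀ s : Finset (Fin n), s.card ≤ d + 1 →
          AffineIndependent ℝ (fun i : s => p (i : Fin n))) →
        ∃ f : Fin n → Fin r, ∃ q : Fin (k - c + 1) → EuclideanSpace ℝ (Fin d),
          AffineIndependent ℝ q ∧
          ∀ j : Fin (k - c + 1), ∀ i : Fin r,
            q j ∈ convexHull ℝ (p '' {m : Fin n | f m = i}) := by
  have hCA : P_CA := T_CA T_CC
  have hKEY : P_KEY := T_KEY hCA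
  have hKEY2 : P_KEY2 := K2_T_KEY2 hKEY T_DIM T_INDEP
  have hPOS : P_POS := T_POS hCA T_DIM T_INDEP
  have hDIMC : P_DIMC := T_DIMC T_DIM T_SPAN T_CIRCU
  have hROOM : P_ROOM := T_ROOM T_DIM T_SPAN T_CIRCU
  have hROT : P_ROT := T_ROT T_DIM T_INDEP
  have hTIE : P_TIE := T_TIE hPOS hROT T_EXCH hDIMC
  have hTIEQ : P_TIEQ := T_TIEQ hPOS hROT T_EXCH T_CIRCU T_INT T_RK T_KW
  have hCASEX : P_CASEX := T_CASEX (T_EXT T_SPAN)
  have hDW : P_DW := T_DW hCASEX
  have hDESC : P_DESC := T_DESC (T_NEXT hCA hCASEX hDW T_DIM T_INDEP)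
    (T_KEY3 hKEY hCASEX hDW T_DIM T_INDEP)
  exact T_ASMR T_TV T_GEN T_GEN2 (T_IMP T_GEN) T_FIN hKEY2 hROOM hTIE hTIEQ hDESC

end Pool.Agent.Results.MP_a0a351_co.AllNumbersOfParts
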